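import Mathlib
import Pool.Prelude.Def_F_c31e40fa
import Pool.Agent.W677.VF5

set_option autoImplicit false

open Metric

namespace Pool.Agent.Results.MP_af9036_an.CriticalVelocity

/-- The `j`-th iterate of the critical point `0` of `z ^ n + c`, as a function of `c`. -/
def crit (n j : ℕ) (c : ℂ) : ℂ := (fun z : ℂ => z ^ n + c)^[j] 0

/-- The parameters `c` for which `z ^ n + c` has an attracting cycle. -/
def hyp (n : ℕ) : Set ℂ := {c | ∃ m z, N62a1eb23.IsAttractingCycle (fun z => z ^ n + c) m z}

/-- Effective density of hyperbolicity against the motion of the critical orbit: the distance from a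
parameter of the Multibrot set to the parameters with an attracting cycle is bounded by the modulus
of continuity of the velocities of the critical orbit, and by the relative displacement of two
points of the critical orbit between two parameters. -/
theorem result (n : ℕ) (hn : 2 ≤ n) (c : ℂ) (hc : c ∈ N62a1eb23.multibrotSet n) :
    -- velocities
    (∀ j k : ℕ, infDist c (hyp n) * ‖deriv (crit n j) c - deriv (crit n k) c‖ ≤
      2 * ‖crit n j c - crit n k c‖ * Real.log (4 / ‖crit n j c - crit n k c‖)) ∧
    -- displacements between two parameters
    (∀ c' ∈ N62a1eb23.multibrotSet n, ∀ j k : ℕ, crit n j c ≠ crit n k c →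
      crit n j c' ≠ crit n k c' →
      infDist c (hyp n) *
          |Real.log ‖crit n j c - crit n k c‖ - Real.log ‖crit n j c' - crit n k c'‖| ≤
        dist c c' * (Real.log (4 / ‖crit n j c - crit n k c‖) +
          Real.log (4 / ‖crit n j c' - crit n k c'‖))) :=
  ⟨fun j k => Pool.Agent.W677.VF.velocities hn hc j k,
    fun _ hc' _ _ h1 h2 => Pool.Agent.W677.VF.two_parameters hn hc hc' h1 h2⟩

end Pool.Agent.Results.MP_af9036_an.CriticalVelocity
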