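import Mathlib
import Pool.Prelude.Def_F_c31e40fa
import Pool.Agent.W746.LD.Thm

set_option autoImplicit false

namespace Pool.Agent.Results.MP_af9036_an.LargeClosestReturns

/-- The map `z ↦ z ^ n + c`. -/
def f (n : ℕ) (c : ℂ) : ℂ → ℂ := fun z => z ^ n + c

/-- The parameters `c` for which `z ^ n + c` has an attracting cycle. -/
def hyp (n : ℕ) : Set ℂ := {c | ∃ m z, N62a1eb23.IsAttractingCycle (f n c) m z}

/-- `N ≥ 1` is a time of closest return: the `N`-th iterate of the critical value `c` is closer to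
`c` than all the iterates of order `1, …, N - 1`. -/
def ClosestReturn (n : ℕ) (c : ℂ) (N : ℕ) : Prop :=
  1 ≤ N ∧ ∀ i, 1 ≤ i → i < N → ‖(f n c)^[N] c - c‖ < ‖(f n c)^[i] c - c‖

/-- Quantitative density of hyperbolicity at parameters with large derivatives at the closest
returns, with constants that do not depend on the degree. -/
theorem result (ε : ℝ) (hε : 0 < ε) : ∃ K C : ℝ, 0 < K ∧ 0 < C ∧
    ∀ n : ℕ, 2 ≤ n → ∀ c ∈ N62a1eb23.multibrotSet n, ∀ N : ℕ, ClosestReturn n c N →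
      (∀ k ≤ N, ClosestReturn n c k → K ≤ ‖deriv (f n c)^[k] c‖) →
      ∃ c' ∈ hyp n, ‖c' - c‖ * ‖deriv (f n c)^[N] c‖ ≤ C * ‖(f n c)^[N] c - c‖ ^ (1 - ε) := by
  obtain ⟨K, C, hK, hC, h⟩ := Pool.Agent.W746.LD.quant hε
  refine ⟨K, C, by linarith, hC, ?_⟩
  intro n hn c hc N hN hlarge
  have hP : ∀ k, deriv (f n c)^[k] c = Pool.Agent.W746.LD.P n c c k := fun k =>
    (Pool.Agent.W746.LD.hasDerivAt_orb c k).deriv
  obtain ⟨c', h1, h2⟩ := h n hn c hc N hN (fun k hk hk' => by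
    rw [← hP]; exact hlarge k hk hk')
  rw [← hP] at h2
  exact ⟨c', h1, h2⟩

end Pool.Agent.Results.MP_af9036_an.LargeClosestReturns
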