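import Mathlib
import Pool.Prelude.Def_F_c31e40fa
import Pool.Agent.W677.VF5

set_option autoImplicit false

open Metric

namespace Pool.Agent.Results.MP_af9036_an.ScaleInvariantMotion

/-- The `j`-th iterate of the critical point `0` of `z ^ n + c`, as a function of `c`. -/
def crit (n j : ℕ) (c : ℂ) : ℂ := (fun z : ℂ => z ^ n + c)^[j] 0

/-- The parameters `c` for which `z ^ n + c` has an attracting cycle. -/
def hyp (n : ℕ) : Set ℂ := {c | ∃ m z, N62a1eb23.IsAttractingCycle (fun z => z ^ n + c) m z}

/-- Scale invariant form of effective density of hyperbolicity: the distance from a parameter of the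
Multibrot set to the parameters with an attracting cycle is bounded, with an absolute constant, in
terms of three points of the critical orbit and their velocities. -/
theorem result : ∃ C : ℝ, 0 < C ∧ ∀ n : ℕ, 2 ≤ n → ∀ c ∈ N62a1eb23.multibrotSet n,
    ∀ j k l : ℕ, crit n j c ≠ crit n k c → crit n l c ≠ crit n k c → crit n j c ≠ crit n l c →
      infDist c (hyp n) *
          ‖(deriv (crit n j) c - deriv (crit n k) c) / (crit n j c - crit n k c) -
            (deriv (crit n l) c - deriv (crit n k) c) / (crit n l c - crit n k c)‖ ≤
        C * (1 + |Real.log (‖crit n j c - crit n k c‖ / ‖crit n l c - crit n k c‖)|) :=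
  Pool.Agent.W677.VF.three_times

end Pool.Agent.Results.MP_af9036_an.ScaleInvariantMotion
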